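import Mathlib
import Pool.Agent.Lib.MP_df4dfc_nt.Asm8

/-!
# Almost all targets

Let `K` be a number field, `N ≥ 1`, `d ≥ 2` and let `Φ : ℙ^N → ℙ^N` be any morphism of degree `d`
over `K`. When the vectors over `𝓞 K` are ordered by the size of their coordinates in an integral
basis, one hundred percent of them represent a target `γ₂ ∈ ℙ^N(K)` such that the set `S(Φ, γ₁, γ₂)`
has positive density for every `γ₁` whose forward orbit avoids `γ₂`.
-/

set_option autoImplicit false

namespace Pool.Agent.Results.MP_df4dfc_nt.AlmostAllTargets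

open NumberField Pool.Agent.Lib.MP_df4dfc_nt

universe u

theorem result {K : Type u} [Field K] [NumberField K] {κ : Type} [Fintype κ]
    (b : Module.Basis κ ℤ (𝓞 K)) {N d : ℕ} (hN : 1 ≤ N) (hd : 2 ≤ d) (Φ : Morph K N d)
    (ε : ℝ) (hε : 0 < ε) :
    ∃ B₀ : ℕ, ∀ B : ℕ, B₀ ≤ B →
      (1 - ε) * ((VecBox b N B).ncard : ℝ) ≤
        (({a ∈ VecBox b N B | GoodTarget Φ a}.ncard : ℕ) : ℝ) :=
  almost_all_targets b hN hd Φ ε hε

end Pool.Agent.Results.MP_df4dfc_nt.AlmostAllTargets
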