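import Mathlib
import Pool.Agent.Lib.MP_df4dfc_nt.Pl4

/-!
# Almost all polynomial endomorphisms

Let `K` be a number field, `N ≥ 1`, `d ≥ 2`. Among the tuples `(a X₀ ^ d, G₁, …, G_N)` with `a ∈ 𝓞 K`
and `G₁, …, G_N` forms of degree `d` over `𝓞 K`, that is, among the polynomial maps
`(G₁(1, x) / a, …, G_N(1, x) / a)` of the affine space, ordered by the size of the coordinates of
the coefficients in an integral basis, one hundred percent define a morphism `Φ` of `ℙ^N` such that
`S(Φ, γ₁, γ₂)` has positive density for all targets `γ₂` in the affine space and all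
`γ₁ ∈ ℙ^N(K)` whose forward orbit avoids `γ₂`. If `N ≤ 2`, this holds for **all** targets
`γ₂ ∈ ℙ^N(K)`: the targets at infinity are included.
-/

set_option autoImplicit false

namespace Pool.Agent.Results.MP_df4dfc_nt.PolynomialMaps

open NumberField Pool.Agent.Lib.MP_df4dfc_nt

universe u

theorem result {K : Type u} [Field K] [NumberField K] {κ : Type} [Fintype κ]
    (b : Module.Basis κ ℤ (𝓞 K)) {N d : ℕ} (hN : 1 ≤ N) (hd : 2 ≤ d) (ε : ℝ) (hε : 0 < ε) :
    ∃ B₀ : ℕ, ∀ B : ℕ, B₀ ≤ B →
      (1 - ε) * ((PolyBox b N d B).ncard : ℝ) ≤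
        (({G ∈ PolyBox b N d B | GoodForPoly d G}.ncard : ℕ) : ℝ) :=
  almost_all_poly' b hN hd ε hε

end Pool.Agent.Results.MP_df4dfc_nt.PolynomialMaps
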