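import Mathlib
import Pool.Agent.Lib.MP_df4dfc_nt.Ti7

/-!
# A positive proportion of all morphisms satisfy the density statement for all pairs of points

For every number field `K`, every `N` and every degree `d ≥ 2`: when the tuples of forms of degree `d`
over `𝓞 K` are ordered by the size of the coordinates of their coefficients in an integral basis, a
positive proportion of them define a morphism `Φ` of `ℙ^N` such that `S(Φ, γ₁, γ₂)` has positive
density for **all** pairs `γ₁, γ₂` with `Φ^m(γ₁) ≠ γ₂` for all `m`.
-/

set_option autoImplicit false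

namespace Pool.Agent.Results.MP_df4dfc_nt.PositiveProportion

open NumberField Pool.Agent.Lib.MP_df4dfc_nt

universe u

theorem result {K : Type u} [Field K] [NumberField K] {κ : Type} [Fintype κ]
    (b : Module.Basis κ ℤ (𝓞 K)) (N d : ℕ) (hd : 2 ≤ d) :
    ∃ c : ℝ, 0 < c ∧ ∃ B₀ : ℕ, ∀ B : ℕ, B₀ ≤ B →
      c * ((FormBox b N d B).ncard : ℝ) ≤
        (({G ∈ FormBox b N d B | GoodForAll d G}.ncard : ℕ) : ℝ) :=
  positive_proportion b N hd

end Pool.Agent.Results.MP_df4dfc_nt.PositiveProportion
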