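import Mathlib
import Pool.Agent.Lib.MP_df4dfc_nt.Tw

/-!
# Towers

The class of towers (`Tower`, see the file `DefsTower`) is the least class of morphisms of degree at
least two of projective spaces over fields that contains all morphisms of `ℙ⁰` and `ℙ¹`, the symmetric
products of all morphisms of `ℙ¹` and the generic morphisms of the plane preserving a line, and is
closed under fibrations over linear projections, extension from forward invariant hypersurfaces
covered by embedded projective spaces (under a condition on maximal attraction), semiconjugacies by
morphisms, iterates and descent of the base field.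

For every tower `Φ` over a number field and **all** `γ₁, γ₂` with `Φ^m(γ₁) ≠ γ₂` for all `m` the set
`S(Φ, γ₁, γ₂)` has positive density.
-/

set_option autoImplicit false

namespace Pool.Agent.Results.MP_df4dfc_nt.Towers

open Pool.Agent.Lib.MP_df4dfc_nt

universe u

theorem result {K : Type u} [Field K] [NumberField K] {N d : ℕ} {Φ : Morph K N d} (h : Tower Φ)
    (γ₁ γ₂ : PN K N) (H : ∀ m : ℕ, Φ.map^[m] γ₁ ≠ γ₂) :
    PosDensity (avoidSet Φ γ₁ γ₂) :=
  posDensity_tower h γ₁ γ₂ H

end Pool.Agent.Results.MP_df4dfc_nt.Towers
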